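import Pool.Agent.Lib.MP_dae7ec_co.PC.Red

/-!
# Five-sets congruent to a multiple of `{0, 1, M, M ^ 2, M ^ 3}`
-/

set_option autoImplicit false

namespace Pool.Agent.Lib.MP_dae7ec_co.PC

open Pool.Agent.Lib.MP_dae7ec_co

theorem norm_le_of_dvd (W z : GaussianInt) (h : W ∣ z) (hz : z ≠ 0) :
    W.re ^ 2 + W.im ^ 2 ≤ z.re ^ 2 + z.im ^ 2 := by
  obtain ⟨c, rfl⟩ := h
  have hc : c ≠ 0 := by
    rintro rfl
    exact hz (mul_zero _)
  have hc' : 1 ≤ c.re ^ 2 + c.im ^ 2 := by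
    by_contra hcon
    have h1 : c.re ^ 2 + c.im ^ 2 ≤ 0 := by omega
    have h2 : c.re = 0 := by nlinarith [sq_nonneg c.re, sq_nonneg c.im]
    have h3 : c.im = 0 := by nlinarith [sq_nonneg c.re, sq_nonneg c.im]
    exact hc (Zsqrtd.ext h2 h3)
  have e : (W * c).re ^ 2 + (W * c).im ^ 2
      = (W.re ^ 2 + W.im ^ 2) * (c.re ^ 2 + c.im ^ 2) := by
    simp only [Zsqrtd.re_mul, Zsqrtd.im_mul]; ring
  rw [e]
  nlinarith [sq_nonneg W.re, sq_nonneg W.im]

theorem dvd_pow_sub_rot (M : ℤ) (j : Fin 4) :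
    (⟨M, -1⟩ : GaussianInt) ∣ (M : GaussianInt) ^ (j : ℕ) - rot j := by
  have h : (⟨M, -1⟩ : GaussianInt) = (M : GaussianInt) - ⟨0, 1⟩ := by
    ext <;> simp
  rw [h]
  exact sub_dvd_pow_sub_pow _ _ _

theorem lab_two : lab ⟨2, -1⟩ = 0 := by decide

theorem lab_int (M : ℤ) : lab (M : GaussianInt) = (M : ZMod 5) := by
  simp [lab]

theorem lab_pow (z : GaussianInt) (n : ℕ) : lab (z ^ n) = lab z ^ n := by
  induction n with
  | zero => simp [lab_one]
  | succ n ih => rw [pow_succ, lab_mul, ih, pow_succ]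

theorem cong_main (M : ℤ) (hM : 5 ≤ M) (s : GaussianInt → ZMod 5) (k : GaussianInt → Fin 4)
    (h5 : (M : ZMod 5) = 0)
    (hLR : ∀ z, LR s k z) (hs : ∀ z c, s (z + ⟨M, -1⟩ * c) = s z)
    (hk : ∀ z c, k (z + ⟨M, -1⟩ * c) = k z) (u : GaussianInt) (t : Fin 4 → GaussianInt)
    (ht : ∀ j : Fin 4, (⟨M, -1⟩ * ⟨2, -1⟩ : GaussianInt) ∣ u * t j - (M : GaussianInt) ^ (j : ℕ)) :
    RotTiles (insert 0 (Finset.univ.image t)) := by
  have hW : ∀ j, (⟨M, -1⟩ : GaussianInt) ∣ u * t j - rot j := by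
    intro j
    have h1 : (⟨M, -1⟩ : GaussianInt) ∣ u * t j - (M : GaussianInt) ^ (j : ℕ) :=
      (Dvd.intro _ rfl).trans (ht j)
    have := dvd_add h1 (dvd_pow_sub_rot M j)
    simpa using this
  refine rotTiles_of_conf s k ⟨M, -1⟩ u hLR hs hk t ?_ ?_ hW ?_
  · intro j hj
    have h1 := hW j
    rw [hj, mul_zero, zero_sub, dvd_neg] at h1
    have h2 := norm_le_of_dvd _ _ h1 (by clear h1 hj; revert j; decide)
    have h3 : (rot j).re ^ 2 + (rot j).im ^ 2 = 1 := by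
      clear h2 h1 hj; revert j; decide
    rw [h3] at h2
    simp only at h2
    nlinarith
  · intro j j' hjj
    by_contra hne
    have h1 := dvd_sub (hW j) (hW j')
    rw [hjj, sub_sub_sub_cancel_left] at h1
    have h0 : rot j' - rot j ≠ 0 := by
      clear h1 hjj; revert j j'; decide
    have h2 := norm_le_of_dvd _ _ h1 h0
    have h3 : (rot j' - rot j).re ^ 2 + (rot j' - rot j).im ^ 2 ≤ 4 := by
      clear h2 h1 h0 hjj hne; revert j j'; decide
    simp only at h2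
    nlinarith
  · intro j
    obtain ⟨c, hc⟩ := (Dvd.intro_left _ rfl : (⟨2, -1⟩ : GaussianInt) ∣ ⟨M, -1⟩ * ⟨2, -1⟩).trans
      (ht j)
    have h1 : u * t j = (M : GaussianInt) ^ (j : ℕ) + ⟨2, -1⟩ * c := by
      rw [← hc]; ring
    rw [h1, lab_add, lab_mul ⟨2, -1⟩, lab_two, zero_mul, add_zero, lab_pow, lab_int, h5]
    clear h1 hc
    revert j; decide

end Pool.Agent.Lib.MP_dae7ec_co.PC
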