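import Pool.Agent.Lib.MP_dae7ec_co.PC.Red

/-!
# Gluing a configuration on the torus of `M - i`
-/

set_option autoImplicit false

namespace Pool.Agent.Lib.MP_dae7ec_co.PC

open Pool.Agent.Lib.MP_dae7ec_co

/-- the local rule for a configuration on `ℤ × ℤ` -/
def LRZ (Q : ℤ → ℤ → ZMod 5 × Fin 4) (x y : ℤ) : Prop :=
  ∀ σ : ZMod 5, (if (Q x y).1 = σ then 1 else 0) +
    ((if arm (Q (x - 1) y).1 (Q (x - 1) y).2 0 = σ then 1 else 0) +
    (if arm (Q x (y - 1)).1 (Q x (y - 1)).2 1 = σ then 1 else 0) +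
    (if arm (Q (x + 1) y).1 (Q (x + 1) y).2 2 = σ then 1 else 0) +
    (if arm (Q x (y + 1)).1 (Q x (y + 1)).2 3 = σ then 1 else 0)) = 1

/-- representatives in a box -/
theorem exists_rep (h A : ℤ) (hh : 0 ≤ h) (z : GaussianInt) : ∃ c : GaussianInt,
    -A ≤ (z + ⟨2 * h, -1⟩ * c).re ∧ (z + ⟨2 * h, -1⟩ * c).re ≤ 2 * h - A ∧
    -A ≤ (z + ⟨2 * h, -1⟩ * c).im ∧ (z + ⟨2 * h, -1⟩ * c).im ≤ 2 * h - A := by
  set v1 : ℤ := z.re - (h - A) with hv1
  set v2 : ℤ := z.im - (h - A) with hv2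
  set a : ℤ := 2 * h * v1 - v2 with ha
  set b : ℤ := v1 + 2 * h * v2 with hb
  set N : ℤ := (2 * h) ^ 2 + 1 with hN
  have hNpos : 0 < N := by positivity
  set c1 : ℤ := (2 * a + N) / (2 * N) with hc1
  set c2 : ℤ := (2 * b + N) / (2 * N) with hc2
  have e1 : 2 * N * c1 + (2 * a + N) % (2 * N) = 2 * a + N := Int.mul_ediv_add_emod _ _
  have e2 : 2 * N * c2 + (2 * b + N) % (2 * N) = 2 * b + N := Int.mul_ediv_add_emod _ _
  have p1 : 0 ≤ (2 * a + N) % (2 * N) := Int.emod_nonneg _ (by positivity)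
  have p2 : 0 ≤ (2 * b + N) % (2 * N) := Int.emod_nonneg _ (by positivity)
  have q1 : (2 * a + N) % (2 * N) < 2 * N := Int.emod_lt_of_pos _ (by positivity)
  have q2 : (2 * b + N) % (2 * N) < 2 * N := Int.emod_lt_of_pos _ (by positivity)
  set r1 : ℤ := a - N * c1 with hr1
  set r2 : ℤ := b - N * c2 with hr2
  have g1 : -N ≤ 2 * r1 := by linarith
  have g1' : 2 * r1 ≤ N := by linarith
  have g2 : -N ≤ 2 * r2 := by linarith
  have g2' : 2 * r2 ≤ N := by linarith
  refine ⟨⟨-c1, -c2⟩, ?_⟩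
  have hre : ((z + ⟨2 * h, -1⟩ * (⟨-c1, -c2⟩ : GaussianInt)).re : ℤ)
      = (h - A) + (v1 - (2 * h * c1 + c2)) := by
    simp only [Zsqrtd.re_add, Zsqrtd.re_mul, hv1]; ring
  have him : ((z + ⟨2 * h, -1⟩ * (⟨-c1, -c2⟩ : GaussianInt)).im : ℤ)
      = (h - A) + (v2 - (2 * h * c2 - c1)) := by
    simp only [Zsqrtd.im_add, Zsqrtd.im_mul, hv2]; ring
  rw [hre, him]
  have f1 : N * (v1 - (2 * h * c1 + c2)) = 2 * h * r1 + r2 := by
    rw [hr1, hr2, ha, hb, hN]; ring
  have f2 : N * (v2 - (2 * h * c2 - c1)) = 2 * h * r2 - r1 := by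
    rw [hr1, hr2, ha, hb, hN]; ring
  set X : ℤ := v1 - (2 * h * c1 + c2) with hX
  set Y : ℤ := v2 - (2 * h * c2 - c1) with hY
  have k1 : 2 * X ≤ 2 * h + 1 := by
    have : N * (2 * X) ≤ N * (2 * h + 1) := by nlinarith
    exact le_of_mul_le_mul_left this hNpos
  have k2 : -(2 * h + 1) ≤ 2 * X := by
    have : N * (-(2 * h + 1)) ≤ N * (2 * X) := by nlinarith
    exact le_of_mul_le_mul_left this hNpos
  have k3 : 2 * Y ≤ 2 * h + 1 := by
    have : N * (2 * Y) ≤ N * (2 * h + 1) := by nlinarith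
    exact le_of_mul_le_mul_left this hNpos
  have k4 : -(2 * h + 1) ≤ 2 * Y := by
    have : N * (-(2 * h + 1)) ≤ N * (2 * Y) := by nlinarith
    exact le_of_mul_le_mul_left this hNpos
  refine ⟨by omega, by omega, by omega, by omega⟩

theorem small_mult (M : ℤ) (hM : 4 ≤ M) (c : GaussianInt)
    (h1 : |((⟨M, -1⟩ : GaussianInt) * c).re| ≤ M + 2)
    (h2 : |((⟨M, -1⟩ : GaussianInt) * c).im| ≤ M + 2) : |c.re| ≤ 1 ∧ |c.im| ≤ 1 := by
  obtain ⟨a, b⟩ := c
  simp only [Zsqrtd.re_mul, Zsqrtd.im_mul] at h1 h2 ⊢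
  have e1 : M * a + -1 * -1 * b = M * a + b := by ring
  have e2 : M * b + -1 * a = M * b - a := by ring
  rw [e1] at h1
  rw [e2] at h2
  rw [abs_le] at h1 h2
  obtain ⟨h1, h1'⟩ := h1
  obtain ⟨h2, h2'⟩ := h2
  have ga : (M ^ 2 + 1) * a = M * (M * a + b) - (M * b - a) := by ring
  have gb : (M ^ 2 + 1) * b = M * (M * b - a) + (M * a + b) := by ring
  have hlt : (M + 1) * (M + 2) < 2 * (M ^ 2 + 1) := by nlinarith
  have hpos : 0 < M ^ 2 + 1 := by positivity
  refine ⟨?_, ?_⟩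
  · rw [abs_le]
    constructor
    · by_contra hcon
      have : a ≤ -2 := by omega
      nlinarith
    · by_contra hcon
      have : 2 ≤ a := by omega
      nlinarith
  · rw [abs_le]
    constructor
    · by_contra hcon
      have : b ≤ -2 := by omega
      nlinarith
    · by_contra hcon
      have : 2 ≤ b := by omega
      nlinarith

/-- equality of values at congruent points of the extended box -/
theorem value_eq (M A : ℤ) (hM : 4 ≤ M) (Q : ℤ → ℤ → ZMod 5 × Fin 4)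
    (h2 : ∀ x y, x ≤ -A + 2 → -A - 2 ≤ x → Q (x + M) (y - 1) = Q x y)
    (h3 : ∀ x y, y ≤ -A + 2 → -A - 2 ≤ y → Q (x + 1) (y + M) = Q x y)
    (w w' c : GaussianInt) (hw : w' = w + ⟨M, -1⟩ * c)
    (b1 : -A - 1 ≤ w.re) (b2 : w.re ≤ M - A + 1) (b3 : -A - 1 ≤ w.im) (b4 : w.im ≤ M - A + 1)
    (b1' : -A - 1 ≤ w'.re) (b2' : w'.re ≤ M - A + 1) (b3' : -A - 1 ≤ w'.im)
    (b4' : w'.im ≤ M - A + 1) : Q w'.re w'.im = Q w.re w.im := by
  have hre : w'.re = w.re + ((⟨M, -1⟩ : GaussianInt) * c).re := by rw [hw]; rfl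
  have him : w'.im = w.im + ((⟨M, -1⟩ : GaussianInt) * c).im := by rw [hw]; rfl
  obtain ⟨hc1, hc2⟩ := small_mult M hM c (by rw [abs_le]; constructor <;> omega)
    (by rw [abs_le]; constructor <;> omega)
  obtain ⟨a, b⟩ := c
  simp only [Zsqrtd.re_mul, Zsqrtd.im_mul] at hre him
  simp only at hc1 hc2
  rw [abs_le] at hc1 hc2
  obtain ⟨x, y⟩ := w
  obtain ⟨x', y'⟩ := w'
  simp only at *
  have ha : a = -1 ∨ a = 0 ∨ a = 1 := by omega
  have hb : b = -1 ∨ b = 0 ∨ b = 1 := by omega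
  rcases ha with rfl | rfl | rfl <;> rcases hb with rfl | rfl | rfl
  · -- (-1,-1)
    have ex : x = x' + M + 1 := by linarith
    have ey : y = y' - 1 + M := by linarith
    rw [ex, ey, h3 (x' + M) (y' - 1) (by omega) (by omega), h2 x' y' (by omega) (by omega)]
  · -- (-1,0)
    have ex : x = x' + M := by linarith
    have ey : y = y' - 1 := by linarith
    rw [ex, ey, h2 x' y' (by omega) (by omega)]
  · -- (-1,1): w' = w + (-M+1, 1+M)
    have ex : x' = x - M + 1 := by linarith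
    have ey : y' = y + 1 + M := by linarith
    rw [ex, ey, h3 (x - M) (y + 1) (by omega) (by omega)]
    have := h2 (x - M) (y + 1) (by omega) (by omega)
    rw [show x - M + M = x by ring, show y + 1 - 1 = y by ring] at this
    exact this.symm
  · -- (0,-1)
    have ex : x = x' + 1 := by linarith
    have ey : y = y' + M := by linarith
    rw [ex, ey, h3 x' y' (by omega) (by omega)]
  · have ex : x' = x := by linarith
    have ey : y' = y := by linarith
    rw [ex, ey]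
  · have ex : x' = x + 1 := by linarith
    have ey : y' = y + M := by linarith
    rw [ex, ey, h3 x y (by omega) (by omega)]
  · -- (1,-1): w' = w + (M-1, -1-M)
    have ex : x = x' - M + 1 := by linarith
    have ey : y = y' + 1 + M := by linarith
    rw [ex, ey, h3 (x' - M) (y' + 1) (by omega) (by omega)]
    have := h2 (x' - M) (y' + 1) (by omega) (by omega)
    rw [show x' - M + M = x' by ring, show y' + 1 - 1 = y' by ring] at this
    exact this
  · have ex : x' = x + M := by linarith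
    have ey : y' = y - 1 := by linarith
    rw [ex, ey, h2 x y (by omega) (by omega)]
  · have ex : x' = x + M + 1 := by linarith
    have ey : y' = y - 1 + M := by linarith
    rw [ex, ey, h3 (x + M) (y - 1) (by omega) (by omega), h2 x y (by omega) (by omega)]

theorem glue (h A : ℤ) (hh : 2 ≤ h) (Q : ℤ → ℤ → ZMod 5 × Fin 4)
    (hQ : ∀ x y, LRZ Q x y)
    (h2 : ∀ x y, x ≤ -A + 2 → -A - 2 ≤ x → Q (x + 2 * h) (y - 1) = Q x y)
    (h3 : ∀ x y, y ≤ -A + 2 → -A - 2 ≤ y → Q (x + 1) (y + 2 * h) = Q x y) :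
    ∃ (s : GaussianInt → ZMod 5) (k : GaussianInt → Fin 4), (∀ z, LR s k z) ∧
      (∀ z c, s (z + ⟨2 * h, -1⟩ * c) = s z) ∧ (∀ z c, k (z + ⟨2 * h, -1⟩ * c) = k z) := by
  choose c hc1 hc2 hc3 hc4 using exists_rep h A (by omega)
  set r : GaussianInt → GaussianInt := fun z => z + ⟨2 * h, -1⟩ * c z with hr
  have key : ∀ (z w d : GaussianInt), w = z + ⟨2 * h, -1⟩ * d → -A - 1 ≤ w.re →
      w.re ≤ 2 * h - A + 1 → -A - 1 ≤ w.im → w.im ≤ 2 * h - A + 1 →
      Q (r z).re (r z).im = Q w.re w.im := by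
    intro z w d hw k1 k2 k3 k4
    have a1 : -A ≤ (r z).re := hc1 z
    have a2 : (r z).re ≤ 2 * h - A := hc2 z
    have a3 : -A ≤ (r z).im := hc3 z
    have a4 : (r z).im ≤ 2 * h - A := hc4 z
    refine value_eq (2 * h) A (by omega) Q h2 h3 w (r z) (c z - d) ?_ k1 k2 k3 k4 (by omega)
      (by omega) (by omega) (by omega)
    rw [hw, hr]; ring
  refine ⟨fun z => (Q (r z).re (r z).im).1, fun z => (Q (r z).re (r z).im).2, ?_, ?_, ?_⟩
  · intro z σ
    have a1 : -A ≤ (r z).re := hc1 z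
    have a2 : (r z).re ≤ 2 * h - A := hc2 z
    have a3 : -A ≤ (r z).im := hc3 z
    have a4 : (r z).im ≤ 2 * h - A := hc4 z
    have hn : ∀ d : Fin 4, Q (r (z - rot d)).re (r (z - rot d)).im
        = Q (r z - rot d).re (r z - rot d).im := by
      intro d
      have hd : |(rot d).re| ≤ 1 ∧ |(rot d).im| ≤ 1 := by
        revert d; decide
      rw [abs_le, abs_le] at hd
      obtain ⟨⟨d1, d2⟩, d3, d4⟩ := hd
      refine key (z - rot d) (r z - rot d) (c z) (by rw [hr]; ring) ?_ ?_ ?_ ?_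
      · rw [Zsqrtd.re_sub]; omega
      · rw [Zsqrtd.re_sub]; omega
      · rw [Zsqrtd.im_sub]; omega
      · rw [Zsqrtd.im_sub]; omega
    have := hQ (r z).re (r z).im σ
    refine Eq.trans ?_ this
    refine congrArg₂ (· + ·) rfl ?_
    rw [Fin.sum_univ_four]
    simp only [hn]
    have e0 : r z - rot 0 = ⟨(r z).re - 1, (r z).im⟩ := by
      rw [rot_zero]; ext <;> simp
    have e1 : r z - rot 1 = ⟨(r z).re, (r z).im - 1⟩ := by
      rw [rot_one]; ext <;> simp
    have e2 : r z - rot 2 = ⟨(r z).re + 1, (r z).im⟩ := by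
      rw [rot_two]; ext <;> simp
    have e3 : r z - rot 3 = ⟨(r z).re, (r z).im + 1⟩ := by
      rw [rot_three]; ext <;> simp
    rw [e0, e1, e2, e3]
  · intro z d
    show (Q (r (z + ⟨2 * h, -1⟩ * d)).re (r (z + ⟨2 * h, -1⟩ * d)).im).1 = (Q (r z).re (r z).im).1
    have a1 : -A ≤ (r z).re := hc1 z
    have a2 : (r z).re ≤ 2 * h - A := hc2 z
    have a3 : -A ≤ (r z).im := hc3 z
    have a4 : (r z).im ≤ 2 * h - A := hc4 z
    rw [key (z + ⟨2 * h, -1⟩ * d) (r z) (c z - d) (by rw [hr]; ring) (by omega) (by omega)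
      (by omega) (by omega)]
  · intro z d
    show (Q (r (z + ⟨2 * h, -1⟩ * d)).re (r (z + ⟨2 * h, -1⟩ * d)).im).2 = (Q (r z).re (r z).im).2
    have a1 : -A ≤ (r z).re := hc1 z
    have a2 : (r z).re ≤ 2 * h - A := hc2 z
    have a3 : -A ≤ (r z).im := hc3 z
    have a4 : (r z).im ≤ 2 * h - A := hc4 z
    rw [key (z + ⟨2 * h, -1⟩ * d) (r z) (c z - d) (by rw [hr]; ring) (by omega) (by omega)
      (by omega) (by omega)]

end Pool.Agent.Lib.MP_dae7ec_co.PC
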