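import Pool.Agent.Lib.MP_dae7ec_co.PC.Glue

/-!
# Gluing a configuration on the torus of `M - i`, any `M`
-/

set_option autoImplicit false

namespace Pool.Agent.Lib.MP_dae7ec_co.PC

open Pool.Agent.Lib.MP_dae7ec_co

/-- representatives in a box -/
theorem exists_repM (M A : ℤ) (hM : 1 ≤ M) (z : GaussianInt) : ∃ c : GaussianInt,
    -A ≤ (z + ⟨M, -1⟩ * c).re ∧ (z + ⟨M, -1⟩ * c).re ≤ M - A ∧
    -A ≤ (z + ⟨M, -1⟩ * c).im ∧ (z + ⟨M, -1⟩ * c).im ≤ M - A := by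
  set v1 : ℤ := 2 * z.re - (M - 2 * A) with hv1
  set v2 : ℤ := 2 * z.im - (M - 2 * A) with hv2
  set a : ℤ := M * v1 - v2 with ha
  set b : ℤ := v1 + M * v2 with hb
  set N : ℤ := M ^ 2 + 1 with hN
  have hNpos : 0 < N := by positivity
  set c1 : ℤ := (a + N) / (2 * N) with hc1
  set c2 : ℤ := (b + N) / (2 * N) with hc2
  have e1 : 2 * N * c1 + (a + N) % (2 * N) = a + N := Int.mul_ediv_add_emod _ _
  have e2 : 2 * N * c2 + (b + N) % (2 * N) = b + N := Int.mul_ediv_add_emod _ _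
  have p1 : 0 ≤ (a + N) % (2 * N) := Int.emod_nonneg _ (by positivity)
  have p2 : 0 ≤ (b + N) % (2 * N) := Int.emod_nonneg _ (by positivity)
  have q1 : (a + N) % (2 * N) < 2 * N := Int.emod_lt_of_pos _ (by positivity)
  have q2 : (b + N) % (2 * N) < 2 * N := Int.emod_lt_of_pos _ (by positivity)
  set r1 : ℤ := a - 2 * N * c1 with hr1
  set r2 : ℤ := b - 2 * N * c2 with hr2
  have g1 : -N ≤ r1 := by linarith
  have g1' : r1 ≤ N := by linarith
  have g2 : -N ≤ r2 := by linarith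
  have g2' : r2 ≤ N := by linarith
  refine ⟨⟨-c1, -c2⟩, ?_⟩
  have hre : 2 * ((z + ⟨M, -1⟩ * (⟨-c1, -c2⟩ : GaussianInt)).re : ℤ)
      = (M - 2 * A) + (v1 - 2 * (M * c1 + c2)) := by
    simp only [Zsqrtd.re_add, Zsqrtd.re_mul, hv1]; ring
  have him : 2 * ((z + ⟨M, -1⟩ * (⟨-c1, -c2⟩ : GaussianInt)).im : ℤ)
      = (M - 2 * A) + (v2 - 2 * (M * c2 - c1)) := by
    simp only [Zsqrtd.im_add, Zsqrtd.im_mul, hv2]; ring
  have f1 : N * (v1 - 2 * (M * c1 + c2)) = M * r1 + r2 := by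
    rw [hr1, hr2, ha, hb, hN]; ring
  have f2 : N * (v2 - 2 * (M * c2 - c1)) = M * r2 - r1 := by
    rw [hr1, hr2, ha, hb, hN]; ring
  set X : ℤ := v1 - 2 * (M * c1 + c2) with hX
  set Y : ℤ := v2 - 2 * (M * c2 - c1) with hY
  have k1 : X ≤ M + 1 := by
    have : N * X ≤ N * (M + 1) := by nlinarith
    exact le_of_mul_le_mul_left this hNpos
  have k2 : -(M + 1) ≤ X := by
    have : N * (-(M + 1)) ≤ N * X := by nlinarith
    exact le_of_mul_le_mul_left this hNpos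
  have k3 : Y ≤ M + 1 := by
    have : N * Y ≤ N * (M + 1) := by nlinarith
    exact le_of_mul_le_mul_left this hNpos
  have k4 : -(M + 1) ≤ Y := by
    have : N * (-(M + 1)) ≤ N * Y := by nlinarith
    exact le_of_mul_le_mul_left this hNpos
  refine ⟨by omega, by omega, by omega, by omega⟩

theorem glueM (M A : ℤ) (hM : 4 ≤ M) (Q : ℤ → ℤ → ZMod 5 × Fin 4)
    (hQ : ∀ x y, LRZ Q x y)
    (h2 : ∀ x y, x ≤ -A + 2 → -A - 2 ≤ x → Q (x + M) (y - 1) = Q x y)
    (h3 : ∀ x y, y ≤ -A + 2 → -A - 2 ≤ y → Q (x + 1) (y + M) = Q x y) :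
    ∃ (s : GaussianInt → ZMod 5) (k : GaussianInt → Fin 4), (∀ z, LR s k z) ∧
      (∀ z c, s (z + ⟨M, -1⟩ * c) = s z) ∧ (∀ z c, k (z + ⟨M, -1⟩ * c) = k z) := by
  choose c hc1 hc2 hc3 hc4 using exists_repM M A (by omega)
  set r : GaussianInt → GaussianInt := fun z => z + ⟨M, -1⟩ * c z with hr
  have key : ∀ (z w d : GaussianInt), w = z + ⟨M, -1⟩ * d → -A - 1 ≤ w.re →
      w.re ≤ M - A + 1 → -A - 1 ≤ w.im → w.im ≤ M - A + 1 →
      Q (r z).re (r z).im = Q w.re w.im := by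
    intro z w d hw k1 k2 k3 k4
    have a1 : -A ≤ (r z).re := hc1 z
    have a2 : (r z).re ≤ M - A := hc2 z
    have a3 : -A ≤ (r z).im := hc3 z
    have a4 : (r z).im ≤ M - A := hc4 z
    refine value_eq M A hM Q h2 h3 w (r z) (c z - d) ?_ k1 k2 k3 k4 (by omega)
      (by omega) (by omega) (by omega)
    rw [hw, hr]; ring
  refine ⟨fun z => (Q (r z).re (r z).im).1, fun z => (Q (r z).re (r z).im).2, ?_, ?_, ?_⟩
  · intro z σ
    have a1 : -A ≤ (r z).re := hc1 z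
    have a2 : (r z).re ≤ M - A := hc2 z
    have a3 : -A ≤ (r z).im := hc3 z
    have a4 : (r z).im ≤ M - A := hc4 z
    have hn : ∀ d : Fin 4, Q (r (z - rot d)).re (r (z - rot d)).im
        = Q (r z - rot d).re (r z - rot d).im := by
      intro d
      have hd : |(rot d).re| ≤ 1 ∧ |(rot d).im| ≤ 1 := by
        revert d; decide
      rw [abs_le, abs_le] at hd
      obtain ⟨⟨d1, d2⟩, d3, d4⟩ := hd
      refine key (z - rot d) (r z - rot d) (c z) (by rw [hr]; ring) ?_ ?_ ?_ ?_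
      · rw [Zsqrtd.re_sub]; omega
      · rw [Zsqrtd.re_sub]; omega
      · rw [Zsqrtd.im_sub]; omega
      · rw [Zsqrtd.im_sub]; omega
    have := hQ (r z).re (r z).im σ
    refine Eq.trans ?_ this
    refine congrArg₂ (· + ·) rfl ?_
    rw [Fin.sum_univ_four]
    simp only [hn]
    have e0 : r z - rot 0 = ⟨(r z).re - 1, (r z).im⟩ := by
      rw [rot_zero]; ext <;> simp
    have e1 : r z - rot 1 = ⟨(r z).re, (r z).im - 1⟩ := by
      rw [rot_one]; ext <;> simp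
    have e2 : r z - rot 2 = ⟨(r z).re + 1, (r z).im⟩ := by
      rw [rot_two]; ext <;> simp
    have e3 : r z - rot 3 = ⟨(r z).re, (r z).im + 1⟩ := by
      rw [rot_three]; ext <;> simp
    rw [e0, e1, e2, e3]
  · intro z d
    show (Q (r (z + ⟨M, -1⟩ * d)).re (r (z + ⟨M, -1⟩ * d)).im).1 = (Q (r z).re (r z).im).1
    have a1 : -A ≤ (r z).re := hc1 z
    have a2 : (r z).re ≤ M - A := hc2 z
    have a3 : -A ≤ (r z).im := hc3 z
    have a4 : (r z).im ≤ M - A := hc4 z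
    rw [key (z + ⟨M, -1⟩ * d) (r z) (c z - d) (by rw [hr]; ring) (by omega) (by omega)
      (by omega) (by omega)]
  · intro z d
    show (Q (r (z + ⟨M, -1⟩ * d)).re (r (z + ⟨M, -1⟩ * d)).im).2 = (Q (r z).re (r z).im).2
    have a1 : -A ≤ (r z).re := hc1 z
    have a2 : (r z).re ≤ M - A := hc2 z
    have a3 : -A ≤ (r z).im := hc3 z
    have a4 : (r z).im ≤ M - A := hc4 z
    rw [key (z + ⟨M, -1⟩ * d) (r z) (c z - d) (by rw [hr]; ring) (by omega) (by omega)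
      (by omega) (by omega)]

end Pool.Agent.Lib.MP_dae7ec_co.PC
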