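import Pool.Agent.Lib.MP_dae7ec_co.PC.Table
import Pool.Agent.Lib.MP_dae7ec_co.PC.Cong

/-!
# From a finite table to tilings for all large multiples of 20
-/

set_option autoImplicit false

namespace Pool.Agent.Lib.MP_dae7ec_co.PC

open Pool.Agent.Lib.MP_dae7ec_co

theorem main_of_table (B n : ℕ) (hn : 2 ≤ n) (hB : allOK B n = true) (M : ℤ) (h20 : (20 : ℤ) ∣ M)
    (hM : 2 * (n : ℤ) + 6 ≤ M) (u : GaussianInt) (t : Fin 4 → GaussianInt)
    (ht : ∀ j : Fin 4, (⟨M, -1⟩ * ⟨2, -1⟩ : GaussianInt) ∣ u * t j - (M : GaussianInt) ^ (j : ℕ)) :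
    RotTiles (insert 0 (Finset.univ.image t)) := by
  obtain ⟨h, rfl⟩ : (2 : ℤ) ∣ M := (by norm_num : (2 : ℤ) ∣ 20).trans h20
  obtain ⟨s, k, h1, h2, h3⟩ := exists_conf B n hn hB h h20 hM
  refine cong_main (2 * h) (by omega) s k ?_ h1 h2 h3 u t ht
  have : (5 : ℤ) ∣ 2 * h := (by norm_num : (5 : ℤ) ∣ 20).trans h20
  exact (ZMod.intCast_zmod_eq_zero_iff_dvd _ 5).mpr (by exact_mod_cast this)

end Pool.Agent.Lib.MP_dae7ec_co.PC
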