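import Pool.Agent.Lib.MP_dae7ec_co.Basic

/-!
# From plus-shaped configurations on a torus to tilings

A configuration is a pair of maps `s : GaussianInt → ZMod 5` (sheet of the centre) and
`k : GaussianInt → Fin 4` (direction of the broken arm).
-/

set_option autoImplicit false

namespace Pool.Agent.Lib.MP_dae7ec_co.PC

open Pool.Agent.Lib.MP_dae7ec_co

/-- the sheet of the arm in direction `d` of a piece with centre sheet `s` and broken arm `k` -/
def arm (s : ZMod 5) (k d : Fin 4) : ZMod 5 := if k = d then s + 2 ^ (d : ℕ) else s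

/-- local rule at `z`: the centre of `z` and the arms of the four neighbours pointing to `z` use
every sheet exactly once -/
def LR (s : GaussianInt → ZMod 5) (k : GaussianInt → Fin 4) (z : GaussianInt) : Prop :=
  ∀ σ : ZMod 5, (if s z = σ then 1 else 0) +
    ∑ d : Fin 4, (if arm (s (z - rot d)) (k (z - rot d)) d = σ then 1 else 0) = 1

/-- the residue in `ZMod 5` -/
def lab (z : GaussianInt) : ZMod 5 := (z.re : ZMod 5) + 2 * (z.im : ZMod 5)

theorem lab_add (z w : GaussianInt) : lab (z + w) = lab z + lab w := by
  simp only [lab, Zsqrtd.re_add, Zsqrtd.im_add]; push_cast; ring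

theorem lab_sub (z w : GaussianInt) : lab (z - w) = lab z - lab w := by
  simp only [lab, Zsqrtd.re_sub, Zsqrtd.im_sub]; push_cast; ring

theorem lab_mul (z w : GaussianInt) : lab (z * w) = lab z * lab w := by
  have h5 : (5 : ZMod 5) = 0 := by decide
  simp only [lab, Zsqrtd.re_mul, Zsqrtd.im_mul]
  push_cast
  linear_combination (- (z.im : ZMod 5) * (w.im : ZMod 5)) * h5

theorem lab_one : lab 1 = 1 := by simp [lab]

theorem lab_rot (k : Fin 4) : lab (rot k) = 2 ^ (k : ℕ) := by
  fin_cases k <;> decide

theorem rot_mul_rot (q j : Fin 4) : rot q * rot j = rot (q + j) := by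
  revert q j; decide

theorem rotTiles_of_conf (s : GaussianInt → ZMod 5) (k : GaussianInt → Fin 4) (W u : GaussianInt)
    (hLR : ∀ z, LR s k z) (hs : ∀ z c, s (z + W * c) = s z) (hk : ∀ z c, k (z + W * c) = k z)
    (t : Fin 4 → GaussianInt) (ht0 : ∀ j, t j ≠ 0) (hinj : Function.Injective t)
    (hW : ∀ j, W ∣ u * t j - rot j) (hlab : ∀ j, lab (u * t j) = if j = 0 then 1 else 0) :
    RotTiles (insert 0 (Finset.univ.image t)) := by
  classical
  refine ⟨fun q z => decide (lab (u * z) = s (u * z) ∧ k (u * z) = q), fun w => ?_⟩
  have hnot : (0 : GaussianInt) ∉ Finset.univ.image t := by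
    intro h
    obtain ⟨j, -, hj⟩ := Finset.mem_image.1 h
    exact ht0 j hj
  have hterm : ∀ q : Fin 4, ∑ x ∈ insert 0 (Finset.univ.image t),
      (decide (lab (u * (w - rot q * x)) = s (u * (w - rot q * x)) ∧
        k (u * (w - rot q * x)) = q)).toNat
      = (if s (u * w) = lab (u * w) ∧ k (u * w) = q then 1 else 0) +
        ∑ d : Fin 4, (if arm (s (u * w - rot d)) (k (u * w - rot d)) d = lab (u * w) ∧
          k (u * w - rot d) = q then 1 else 0) := by
    intro q
    rw [Finset.sum_insert hnot, Finset.sum_image (fun x _ y _ h => hinj h)]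
    refine congrArg₂ (· + ·) ?_ ?_
    · rw [mul_zero, sub_zero]
      by_cases h1 : lab (u * w) = s (u * w)
      · by_cases h2 : k (u * w) = q
        · simp [h1.symm, h2]
        · simp [h2]
      · have h1' : ¬ s (u * w) = lab (u * w) := fun h => h1 h.symm
        simp [h1, h1']
    · rw [← Equiv.sum_comp (Equiv.addLeft q) (fun d : Fin 4 =>
        (if arm (s (u * w - rot d)) (k (u * w - rot d)) d = lab (u * w) ∧
          k (u * w - rot d) = q then 1 else 0))]
      refine Finset.sum_congr rfl fun j _ => ?_
      obtain ⟨c, hc⟩ := hW j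
      have e1 : u * (w - rot q * t j) = (u * w - rot (q + j)) + W * (- (rot q * c)) := by
        rw [← rot_mul_rot]
        linear_combination (- rot q) * hc
      have e2 : lab (u * (w - rot q * t j))
          = lab (u * w) - 2 ^ (q : ℕ) * (if j = 0 then 1 else 0) := by
        rw [show u * (w - rot q * t j) = u * w - rot q * (u * t j) by ring, lab_sub,
          lab_mul (rot q), lab_rot, hlab j]
      rw [e2, e1, hs, hk]
      show _ = (if arm (s (u * w - rot (q + j))) (k (u * w - rot (q + j))) (q + j) = lab (u * w) ∧
          k (u * w - rot (q + j)) = q then 1 else 0)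
      by_cases h2 : k (u * w - rot (q + j)) = q
      · by_cases hj : j = 0
        · subst hj
          simp only [add_zero] at h2 ⊢
          simp only [h2, arm, if_true, and_true, mul_one]
          by_cases h3 : lab (u * w) - 2 ^ (q : ℕ) = s (u * w - rot q)
          · have h3' : s (u * w - rot q) + 2 ^ (q : ℕ) = lab (u * w) := by rw [← h3]; ring
            simp [h3, h3']
          · have h3' : ¬ s (u * w - rot q) + 2 ^ (q : ℕ) = lab (u * w) := by
              intro h; apply h3; rw [← h]; ring
            simp [h3, h3']
        · have hne : ¬ q = q + j := by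
            intro h
            exact hj (by simpa using h.symm)
          simp only [h2, arm, if_neg hj, if_neg hne, and_true, mul_zero, sub_zero]
          by_cases h3 : lab (u * w) = s (u * w - rot (q + j))
          · simp [h3]
          · have h3' : ¬ s (u * w - rot (q + j)) = lab (u * w) := fun h => h3 h.symm
            simp [h3, h3']
      · simp [h2]
  rw [Finset.sum_congr rfl fun q _ => hterm q, Finset.sum_add_distrib, Finset.sum_comm]
  refine Eq.trans ?_ (hLR (u * w) (lab (u * w)))
  refine congrArg₂ (· + ·) ?_ ?_
  · by_cases h1 : s (u * w) = lab (u * w)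
    · simp [h1]
    · simp [h1]
  · refine Finset.sum_congr rfl fun d _ => ?_
    by_cases h1 : arm (s (u * w - rot d)) (k (u * w - rot d)) d = lab (u * w)
    · simp [h1]
    · simp [h1]

end Pool.Agent.Lib.MP_dae7ec_co.PC
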