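import Pool.Agent.Lib.MP_dae7ec_co.PC.Cong
import Pool.Agent.Lib.MP_dae7ec_co.PC.GlueM

/-!
# From plus-shaped configurations on a torus to tilings, all residues of `M` modulo 5
-/

set_option autoImplicit false

namespace Pool.Agent.Lib.MP_dae7ec_co.PC

open Pool.Agent.Lib.MP_dae7ec_co

/-- the sheet of the arm in direction `d` of a piece with centre sheet `s` and rotation `k`; `m` is
the residue of `M` -/
def armM (m s : ZMod 5) (k d : Fin 4) : ZMod 5 := s + 2 ^ (k : ℕ) * m ^ ((d - k : Fin 4) : ℕ)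

/-- local rule at `z` -/
def LRM (m : ZMod 5) (s : GaussianInt → ZMod 5) (k : GaussianInt → Fin 4) (z : GaussianInt) : Prop :=
  ∀ σ : ZMod 5, (if s z = σ then 1 else 0) +
    ∑ d : Fin 4, (if armM m (s (z - rot d)) (k (z - rot d)) d = σ then 1 else 0) = 1

theorem rotTiles_of_confM (m : ZMod 5) (s : GaussianInt → ZMod 5) (k : GaussianInt → Fin 4)
    (W u : GaussianInt)
    (hLR : ∀ z, LRM m s k z) (hs : ∀ z c, s (z + W * c) = s z) (hk : ∀ z c, k (z + W * c) = k z)
    (t : Fin 4 → GaussianInt) (ht0 : ∀ j, t j ≠ 0) (hinj : Function.Injective t)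
    (hW : ∀ j, W ∣ u * t j - rot j) (hlab : ∀ j : Fin 4, lab (u * t j) = m ^ (j : ℕ)) :
    RotTiles (insert 0 (Finset.univ.image t)) := by
  classical
  refine ⟨fun q z => decide (lab (u * z) = s (u * z) ∧ k (u * z) = q), fun w => ?_⟩
  have hnot : (0 : GaussianInt) ∉ Finset.univ.image t := by
    intro h
    obtain ⟨j, -, hj⟩ := Finset.mem_image.1 h
    exact ht0 j hj
  have hterm : ∀ q : Fin 4, ∑ x ∈ insert 0 (Finset.univ.image t),
      (decide (lab (u * (w - rot q * x)) = s (u * (w - rot q * x)) ∧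
        k (u * (w - rot q * x)) = q)).toNat
      = (if s (u * w) = lab (u * w) ∧ k (u * w) = q then 1 else 0) +
        ∑ d : Fin 4, (if armM m (s (u * w - rot d)) (k (u * w - rot d)) d = lab (u * w) ∧
          k (u * w - rot d) = q then 1 else 0) := by
    intro q
    rw [Finset.sum_insert hnot, Finset.sum_image (fun x _ y _ h => hinj h)]
    refine congrArg₂ (· + ·) ?_ ?_
    · rw [mul_zero, sub_zero]
      by_cases h1 : lab (u * w) = s (u * w)
      · by_cases h2 : k (u * w) = q
        · simp [h1.symm, h2]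
        · simp [h2]
      · have h1' : ¬ s (u * w) = lab (u * w) := fun h => h1 h.symm
        simp [h1, h1']
    · rw [← Equiv.sum_comp (Equiv.addLeft q) (fun d : Fin 4 =>
        (if armM m (s (u * w - rot d)) (k (u * w - rot d)) d = lab (u * w) ∧
          k (u * w - rot d) = q then 1 else 0))]
      refine Finset.sum_congr rfl fun j _ => ?_
      obtain ⟨c, hc⟩ := hW j
      have e1 : u * (w - rot q * t j) = (u * w - rot (q + j)) + W * (- (rot q * c)) := by
        rw [← rot_mul_rot]
        linear_combination (- rot q) * hc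
      have e2 : lab (u * (w - rot q * t j))
          = lab (u * w) - 2 ^ (q : ℕ) * m ^ (j : ℕ) := by
        rw [show u * (w - rot q * t j) = u * w - rot q * (u * t j) by ring, lab_sub,
          lab_mul (rot q), lab_rot, hlab j]
      rw [e2, e1, hs, hk]
      show _ = (if armM m (s (u * w - rot (q + j))) (k (u * w - rot (q + j))) (q + j)
          = lab (u * w) ∧ k (u * w - rot (q + j)) = q then 1 else 0)
      by_cases h2 : k (u * w - rot (q + j)) = q
      · have e3 : (q + j - q : Fin 4) = j := by abel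
        simp only [h2, armM, e3, and_true]
        by_cases h3 : lab (u * w) - 2 ^ (q : ℕ) * m ^ (j : ℕ) = s (u * w - rot (q + j))
        · have h3' : s (u * w - rot (q + j)) + 2 ^ (q : ℕ) * m ^ (j : ℕ) = lab (u * w) := by
            rw [← h3]; ring
          simp [h3, h3']
        · have h3' : ¬ s (u * w - rot (q + j)) + 2 ^ (q : ℕ) * m ^ (j : ℕ) = lab (u * w) := by
            intro h; apply h3; rw [← h]; ring
          simp [h3, h3']
      · simp [h2]
  rw [Finset.sum_congr rfl fun q _ => hterm q, Finset.sum_add_distrib, Finset.sum_comm]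
  refine Eq.trans ?_ (hLR (u * w) (lab (u * w)))
  refine congrArg₂ (· + ·) ?_ ?_
  · by_cases h1 : s (u * w) = lab (u * w)
    · simp [h1]
    · simp [h1]
  · refine Finset.sum_congr rfl fun d _ => ?_
    by_cases h1 : armM m (s (u * w - rot d)) (k (u * w - rot d)) d = lab (u * w)
    · simp [h1]
    · simp [h1]

theorem cong_mainM (M : ℤ) (hM : 5 ≤ M) (s : GaussianInt → ZMod 5) (k : GaussianInt → Fin 4)
    (hLR : ∀ z, LRM (M : ZMod 5) s k z) (hs : ∀ z c, s (z + ⟨M, -1⟩ * c) = s z)
    (hk : ∀ z c, k (z + ⟨M, -1⟩ * c) = k z) (u : GaussianInt) (t : Fin 4 → GaussianInt)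
    (ht : ∀ j : Fin 4, (⟨M, -1⟩ * ⟨2, -1⟩ : GaussianInt) ∣ u * t j - (M : GaussianInt) ^ (j : ℕ)) :
    RotTiles (insert 0 (Finset.univ.image t)) := by
  have hW : ∀ j, (⟨M, -1⟩ : GaussianInt) ∣ u * t j - rot j := by
    intro j
    have h1 : (⟨M, -1⟩ : GaussianInt) ∣ u * t j - (M : GaussianInt) ^ (j : ℕ) :=
      (Dvd.intro _ rfl).trans (ht j)
    have := dvd_add h1 (dvd_pow_sub_rot M j)
    simpa using this
  refine rotTiles_of_confM (M : ZMod 5) s k ⟨M, -1⟩ u hLR hs hk t ?_ ?_ hW ?_
  · intro j hj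
    have h1 := hW j
    rw [hj, mul_zero, zero_sub, dvd_neg] at h1
    have h2 := norm_le_of_dvd _ _ h1 (by clear h1 hj; revert j; decide)
    have h3 : (rot j).re ^ 2 + (rot j).im ^ 2 = 1 := by
      clear h2 h1 hj; revert j; decide
    rw [h3] at h2
    simp only at h2
    nlinarith
  · intro j j' hjj
    by_contra hne
    have h1 := dvd_sub (hW j) (hW j')
    rw [hjj, sub_sub_sub_cancel_left] at h1
    have h0 : rot j' - rot j ≠ 0 := by
      clear h1 hjj; revert j j'; decide
    have h2 := norm_le_of_dvd _ _ h1 h0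
    have h3 : (rot j' - rot j).re ^ 2 + (rot j' - rot j).im ^ 2 ≤ 4 := by
      clear h2 h1 h0 hjj hne; revert j j'; decide
    simp only at h2
    nlinarith
  · intro j
    obtain ⟨c, hc⟩ := (Dvd.intro_left _ rfl : (⟨2, -1⟩ : GaussianInt) ∣ ⟨M, -1⟩ * ⟨2, -1⟩).trans
      (ht j)
    have h1 : u * t j = (M : GaussianInt) ^ (j : ℕ) + ⟨2, -1⟩ * c := by
      rw [← hc]; ring
    rw [h1, lab_add, lab_mul ⟨2, -1⟩, lab_two, zero_mul, add_zero, lab_pow, lab_int]

end Pool.Agent.Lib.MP_dae7ec_co.PC
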