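import Pool.Agent.Lib.MP_dae7ec_co.PC.Glue

/-!
# Configurations given by a finite table, continued periodically with period 20
-/

set_option autoImplicit false

namespace Pool.Agent.Lib.MP_dae7ec_co.PC

open Pool.Agent.Lib.MP_dae7ec_co

/-- the entry `(i, j)` of the table `B` with `L` columns, five bits per entry -/
def tab (B L i j : ℕ) : ℕ := (B >>> (5 * (i + L * j))) % 32

/-- sheet and broken arm coded by `n` -/
def dec (n : ℕ) : ZMod 5 × Fin 4 := (((n / 4 : ℕ) : ZMod 5), ⟨n % 4, Nat.mod_lt _ (by norm_num)⟩)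

/-- the local rule for the five codes: centre, west, south, east, north -/
def good (c w s e n : ℕ) : Bool :=
  2 ^ ((c / 4) % 5) + (2 ^ ((w / 4 + (if w % 4 = 0 then 1 else 0)) % 5) +
    2 ^ ((s / 4 + (if s % 4 = 1 then 2 else 0)) % 5) +
    2 ^ ((e / 4 + (if e % 4 = 2 then 4 else 0)) % 5) +
    2 ^ ((n / 4 + (if n % 4 = 3 then 8 else 0)) % 5)) == 31

theorem five_aux : ∀ a b c d e : Fin 5,
    2 ^ (a : ℕ) + (2 ^ (b : ℕ) + 2 ^ (c : ℕ) + 2 ^ (d : ℕ) + 2 ^ (e : ℕ)) = 31 →
    ∀ σ : Fin 5, (if a = σ then 1 else 0) + ((if b = σ then 1 else 0) + (if c = σ then 1 else 0) +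
      (if d = σ then 1 else 0) + (if e = σ then 1 else 0)) = 1 := by
  decide +kernel

theorem five (a b c d e : ℕ)
    (h : 2 ^ (a % 5) + (2 ^ (b % 5) + 2 ^ (c % 5) + 2 ^ (d % 5) + 2 ^ (e % 5)) = 31) (σ : ZMod 5) :
    (if (a : ZMod 5) = σ then 1 else 0) + ((if (b : ZMod 5) = σ then 1 else 0) +
      (if (c : ZMod 5) = σ then 1 else 0) + (if (d : ZMod 5) = σ then 1 else 0) +
      (if (e : ZMod 5) = σ then 1 else 0)) = 1 := by
  have hv : ∀ n : ℕ, ((n : ZMod 5) : Fin 5) = ⟨n % 5, Nat.mod_lt _ (by norm_num)⟩ := by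
    intro n
    apply Fin.ext
    show ZMod.val (n : ZMod 5) = n % 5
    exact ZMod.val_natCast 5 n
  have := five_aux ⟨a % 5, Nat.mod_lt _ (by norm_num)⟩ ⟨b % 5, Nat.mod_lt _ (by norm_num)⟩
    ⟨c % 5, Nat.mod_lt _ (by norm_num)⟩ ⟨d % 5, Nat.mod_lt _ (by norm_num)⟩
    ⟨e % 5, Nat.mod_lt _ (by norm_num)⟩ h σ
  rw [← hv a, ← hv b, ← hv c, ← hv d, ← hv e] at this
  exact this

theorem arm_dec (n : ℕ) (d : Fin 4) : arm (dec n).1 (dec n).2 d
    = ((n / 4 + (if n % 4 = (d : ℕ) then 2 ^ (d : ℕ) else 0) : ℕ) : ZMod 5) := by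
  simp only [arm, dec]
  by_cases h : n % 4 = (d : ℕ)
  · have h' : (⟨n % 4, Nat.mod_lt _ (by norm_num)⟩ : Fin 4) = d := Fin.ext h
    rw [if_pos h, if_pos h']
    push_cast
    rfl
  · have h' : ¬ (⟨n % 4, Nat.mod_lt _ (by norm_num)⟩ : Fin 4) = d := fun hh =>
      h (congrArg Fin.val hh)
    rw [if_neg h, if_neg h', add_zero]

theorem good_spec (c w s e n : ℕ) (h : good c w s e n = true) (σ : ZMod 5) :
    (if (dec c).1 = σ then 1 else 0) +
    ((if arm (dec w).1 (dec w).2 0 = σ then 1 else 0) +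
    (if arm (dec s).1 (dec s).2 1 = σ then 1 else 0) +
    (if arm (dec e).1 (dec e).2 2 = σ then 1 else 0) +
    (if arm (dec n).1 (dec n).2 3 = σ then 1 else 0)) = 1 := by
  rw [arm_dec, arm_dec, arm_dec, arm_dec]
  have h' := eq_of_beq h
  refine five (c / 4) _ _ _ _ ?_ σ
  exact h'

/-- clamping an integer to the window of radius `N + 19` -/
def cl (N x : ℤ) : ℤ :=
  if x < -N then -N - (-N - x) % 20 else if N < x then N + (x - N) % 20 else x

theorem cl_mem (N x : ℤ) (hN : 2 ≤ N) : -N - 19 ≤ cl N x ∧ cl N x ≤ N + 19 := by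
  unfold cl; split_ifs <;> omega

theorem cl_add_one (N x : ℤ) (hN : 2 ≤ N) : cl N (x + 1) = cl N x + 1 ∨
    (cl N (x + 1) = -N - 19 ∧ cl N x + 1 = -N + 1) ∨ (cl N (x + 1) = N ∧ cl N x + 1 = N + 20) := by
  unfold cl; split_ifs <;> omega

theorem cl_sub_one (N x : ℤ) (hN : 2 ≤ N) : cl N (x - 1) = cl N x - 1 ∨
    (cl N (x - 1) = -N ∧ cl N x - 1 = -N - 20) ∨ (cl N (x - 1) = N + 19 ∧ cl N x - 1 = N - 1) := by
  unfold cl; split_ifs <;> omega

/-- all finite conditions on the table; `n` is the radius, `L = 2 n + 41` -/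
def allOK (B n : ℕ) : Bool :=
  let L := 2 * n + 41
  (List.range (L - 2)).all (fun j => (List.range (L - 2)).all fun i =>
    good (tab B L (i + 1) (j + 1)) (tab B L i (j + 1)) (tab B L (i + 1) j)
      (tab B L (i + 2) (j + 1)) (tab B L (i + 1) (j + 2))) &&
  (List.range L).all (fun j => tab B L 0 j == tab B L 20 j && tab B L 1 j == tab B L 21 j &&
    tab B L (L - 1) j == tab B L (L - 21) j && tab B L (L - 2) j == tab B L (L - 22) j &&
    tab B L j 0 == tab B L j 20 && tab B L j 1 == tab B L j 21 &&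
    tab B L j (L - 1) == tab B L j (L - 21) && tab B L j (L - 2) == tab B L j (L - 22)) &&
  (List.range (L - 2)).all (fun j => (List.range 5).all fun a =>
    tab B L (2 * n + 20 + (2 * n * 19 + 15 + a) % 20) j == tab B L (15 + a) (j + 1) &&
    tab B L (j + 2) (2 * n + 20 + (2 * n * 19 + 15 + a) % 20) == tab B L (j + 1) (15 + a))

theorem exists_conf (B n : ℕ) (hn : 2 ≤ n) (hB : allOK B n = true) (h : ℤ) (h20 : (20 : ℤ) ∣ 2 * h)
    (hh : 2 * (n : ℤ) + 6 ≤ 2 * h) :
    ∃ (s : GaussianInt → ZMod 5) (k : GaussianInt → Fin 4), (∀ z, LR s k z) ∧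
      (∀ z c, s (z + ⟨2 * h, -1⟩ * c) = s z) ∧ (∀ z c, k (z + ⟨2 * h, -1⟩ * c) = k z) := by
  set L : ℕ := 2 * n + 41 with hL
  -- the table with integer coordinates
  set T : ℤ → ℤ → ℕ := fun x y => tab B L (x + n + 20).toNat (y + n + 20).toNat with hT
  have hB' : ((List.range (L - 2)).all (fun j => (List.range (L - 2)).all fun i =>
    good (tab B L (i + 1) (j + 1)) (tab B L i (j + 1)) (tab B L (i + 1) j)
      (tab B L (i + 2) (j + 1)) (tab B L (i + 1) (j + 2))) &&
  (List.range L).all (fun j => tab B L 0 j == tab B L 20 j && tab B L 1 j == tab B L 21 j &&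
    tab B L (L - 1) j == tab B L (L - 21) j && tab B L (L - 2) j == tab B L (L - 22) j &&
    tab B L j 0 == tab B L j 20 && tab B L j 1 == tab B L j 21 &&
    tab B L j (L - 1) == tab B L j (L - 21) && tab B L j (L - 2) == tab B L j (L - 22)) &&
  (List.range (L - 2)).all (fun j => (List.range 5).all fun a =>
    tab B L (2 * n + 20 + (2 * n * 19 + 15 + a) % 20) j == tab B L (15 + a) (j + 1) &&
    tab B L (j + 2) (2 * n + 20 + (2 * n * 19 + 15 + a) % 20) == tab B L (j + 1) (15 + a)))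
      = true := hB
  rw [Bool.and_eq_true, Bool.and_eq_true] at hB'
  obtain ⟨⟨hA, hP⟩, hG⟩ := hB'
  rw [List.all_eq_true] at hA hP hG
  -- local rule
  have hloc : ∀ x y : ℤ, -n - 19 ≤ x → x ≤ n + 19 → -n - 19 ≤ y → y ≤ n + 19 →
      good (T x y) (T (x - 1) y) (T x (y - 1)) (T (x + 1) y) (T x (y + 1)) = true := by
    intro x y x1 x2 y1 y2
    have h1 := hA (y + n + 19).toNat (by rw [List.mem_range]; omega)
    rw [List.all_eq_true] at h1
    have h2 := h1 (x + n + 19).toNat (by rw [List.mem_range]; omega)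
    simp only [hT]
    rw [show (x + n + 20).toNat = (x + n + 19).toNat + 1 by omega,
      show (y + n + 20).toNat = (y + n + 19).toNat + 1 by omega,
      show (x - 1 + n + 20).toNat = (x + n + 19).toNat by omega,
      show (y - 1 + n + 20).toNat = (y + n + 19).toNat by omega,
      show (x + 1 + n + 20).toNat = (x + n + 19).toNat + 2 by omega,
      show (y + 1 + n + 20).toNat = (y + n + 19).toNat + 2 by omega]
    exact h2
  -- periodicity
  have hper : ∀ y : ℤ, -n - 20 ≤ y → y ≤ n + 20 →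
      T (-n - 20) y = T (-n) y ∧ T (-n - 19) y = T (-n + 1) y ∧ T (n + 20) y = T n y ∧
      T (n + 19) y = T (n - 1) y ∧ T y (-n - 20) = T y (-n) ∧ T y (-n - 19) = T y (-n + 1) ∧
      T y (n + 20) = T y n ∧ T y (n + 19) = T y (n - 1) := by
    intro y y1 y2
    have h1 := hP (y + n + 20).toNat (by rw [List.mem_range]; omega)
    simp only [Bool.and_eq_true, beq_iff_eq] at h1
    obtain ⟨⟨⟨⟨⟨⟨⟨p1, p2⟩, p3⟩, p4⟩, p5⟩, p6⟩, p7⟩, p8⟩ := h1
    simp only [hT]
    rw [show (-(n : ℤ) - 20 + n + 20).toNat = 0 by omega,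
      show (-(n : ℤ) + n + 20).toNat = 20 by omega,
      show (-(n : ℤ) - 19 + n + 20).toNat = 1 by omega,
      show (-(n : ℤ) + 1 + n + 20).toNat = 21 by omega,
      show ((n : ℤ) + 20 + n + 20).toNat = L - 1 by omega,
      show ((n : ℤ) + n + 20).toNat = L - 21 by omega,
      show ((n : ℤ) + 19 + n + 20).toNat = L - 2 by omega,
      show ((n : ℤ) - 1 + n + 20).toNat = L - 22 by omega]
    exact ⟨p1, p2, p3, p4, p5, p6, p7, p8⟩
  have hnx : (2 : ℤ) ≤ n := by exact_mod_cast hn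
  have hxa : ∀ x y : ℤ, -n - 20 ≤ y → y ≤ n + 20 → T (cl n (x + 1)) y = T (cl n x + 1) y := by
    intro x y y1 y2
    rcases cl_add_one n x hnx with h1 | ⟨h1, h2⟩ | ⟨h1, h2⟩
    · rw [h1]
    · rw [h1, h2]; exact (hper y y1 y2).2.1
    · rw [h1, h2]; exact (hper y y1 y2).2.2.1.symm
  have hxs : ∀ x y : ℤ, -n - 20 ≤ y → y ≤ n + 20 → T (cl n (x - 1)) y = T (cl n x - 1) y := by
    intro x y y1 y2
    rcases cl_sub_one n x hnx with h1 | ⟨h1, h2⟩ | ⟨h1, h2⟩
    · rw [h1]
    · rw [h1, h2]; exact (hper y y1 y2).1.symm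
    · rw [h1, h2]; exact (hper y y1 y2).2.2.2.1
  have hya : ∀ x y : ℤ, -n - 20 ≤ x → x ≤ n + 20 → T x (cl n (y + 1)) = T x (cl n y + 1) := by
    intro x y y1 y2
    rcases cl_add_one n y hnx with h1 | ⟨h1, h2⟩ | ⟨h1, h2⟩
    · rw [h1]
    · rw [h1, h2]; exact (hper x y1 y2).2.2.2.2.2.1
    · rw [h1, h2]; exact (hper x y1 y2).2.2.2.2.2.2.1.symm
  have hys : ∀ x y : ℤ, -n - 20 ≤ x → x ≤ n + 20 → T x (cl n (y - 1)) = T x (cl n y - 1) := by
    intro x y y1 y2
    rcases cl_sub_one n y hnx with h1 | ⟨h1, h2⟩ | ⟨h1, h2⟩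
    · rw [h1]
    · rw [h1, h2]; exact (hper x y1 y2).2.2.2.2.1.symm
    · rw [h1, h2]; exact (hper x y1 y2).2.2.2.2.2.2.2
  -- the configuration
  refine glue h (n + 3) (by omega) (fun x y => dec (T (cl n x) (cl n y))) ?_ ?_ ?_
  · intro x y σ
    have cx := cl_mem n x hnx
    have cy := cl_mem n y hnx
    have hg : good (T (cl n x) (cl n y)) (T (cl n (x - 1)) (cl n y)) (T (cl n x) (cl n (y - 1)))
        (T (cl n (x + 1)) (cl n y)) (T (cl n x) (cl n (y + 1))) = true := by
      rw [hxs x (cl n y) (by omega) (by omega), hxa x (cl n y) (by omega) (by omega),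
        hys (cl n x) y (by omega) (by omega), hya (cl n x) y (by omega) (by omega)]
      exact hloc (cl n x) (cl n y) cx.1 cx.2 cy.1 cy.2
    exact good_spec _ _ _ _ _ hg σ
  · intro x y x1 x2
    have cy := cl_mem n y hnx
    have hcx : cl n x = x := by unfold cl; split_ifs <;> omega
    have cx := cl_mem n (x + 2 * h) hnx
    have hcx' : cl n (x + 2 * h) = n + (x - n) % 20 := by unfold cl; split_ifs <;> omega
    show dec (T (cl n (x + 2 * h)) (cl n (y - 1))) = dec (T (cl n x) (cl n y))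
    rw [hys _ y (by omega) (by omega), hcx, hcx']
    have h1 := hG (cl n y + n + 19).toNat (by rw [List.mem_range]; omega)
    rw [List.all_eq_true] at h1
    have h2 := h1 (x + n + 5).toNat (by rw [List.mem_range]; omega)
    simp only [Bool.and_eq_true, beq_iff_eq] at h2
    have h3 := h2.1
    simp only [hT]
    rw [show ((n : ℤ) + (x - n) % 20 + n + 20).toNat
        = 2 * n + 20 + (2 * n * 19 + 15 + (x + n + 5).toNat) % 20 by omega,
      show (cl n y - 1 + n + 20).toNat = (cl n y + n + 19).toNat by omega,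
      show (x + n + 20).toNat = 15 + (x + n + 5).toNat by omega,
      show (cl n y + n + 20).toNat = (cl n y + n + 19).toNat + 1 by omega, h3]
  · intro x y y1 y2
    have cx := cl_mem n x hnx
    have hcy : cl n y = y := by unfold cl; split_ifs <;> omega
    have cy := cl_mem n (y + 2 * h) hnx
    have hcy' : cl n (y + 2 * h) = n + (y - n) % 20 := by unfold cl; split_ifs <;> omega
    show dec (T (cl n (x + 1)) (cl n (y + 2 * h))) = dec (T (cl n x) (cl n y))
    rw [hxa x _ (by omega) (by omega), hcy, hcy']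
    have h1 := hG (cl n x + n + 19).toNat (by rw [List.mem_range]; omega)
    rw [List.all_eq_true] at h1
    have h2 := h1 (y + n + 5).toNat (by rw [List.mem_range]; omega)
    simp only [Bool.and_eq_true, beq_iff_eq] at h2
    have h3 := h2.2
    simp only [hT]
    rw [show ((n : ℤ) + (y - n) % 20 + n + 20).toNat
        = 2 * n + 20 + (2 * n * 19 + 15 + (y + n + 5).toNat) % 20 by omega,
      show (cl n x + 1 + n + 20).toNat = (cl n x + n + 19).toNat + 2 by omega,
      show (y + n + 20).toNat = 15 + (y + n + 5).toNat by omega,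
      show (cl n x + n + 20).toNat = (cl n x + n + 19).toNat + 1 by omega, h3]

end Pool.Agent.Lib.MP_dae7ec_co.PC
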